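import Pool.Agent.H84.SF.Geo2

/-!
# MP_70ba79_ag, THEOREM S, chapter 11, row HDD

The derivations lower the degree by one.
-/

set_option autoImplicit false

namespace Pool.Agent.H75.SF

open MvPolynomial SC
open Pool.Agent.H27.LV (ge deg poleOrder canDeg)
open Pool.Agent.H92.OD (HS cf sg uu Lat geO IsO DF DD)
open Pool.Agent.H84.SM (y1 y2 Near cr dt dp)
open Pool.Agent.H3.SF (Itg Bb BB Hm eu grd hes Sfc Crd Cnn Crf Prm nv)
open Pool.Agent.H84.SF

theorem pf_HDD : T_HDD := by
  intro k F _ _ _ u dd hdd comm t a l ha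
  unfold Hm at ha ⊢
  have h1 : dd l (eu u dd a) = dd l ((t : F) * a) := by rw [ha]
  have h2 : dd l ((t : F) * a) = (t : F) * dd l a := by
    rw [Derivation.leibniz, Derivation.map_intCast, smul_zero, add_zero, smul_eq_mul]
  have h3 : ∀ b : F, eu u dd b = ∑ j, u j * dd j b := by
    intro b
    unfold eu
    rw [Fin.sum_univ_three, Fin.sum_univ_three]
    rfl
  have h4 : dd l (eu u dd a) = dd l a + eu u dd (dd l a) := by
    rw [h3, h3, map_sum]
    have h5 : ∀ j : Fin 3, dd l (u j * dd j a) =
        u j * dd j (dd l a) + (if l = j then dd j a else 0) := by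
      intro j
      rw [Derivation.leibniz, smul_eq_mul, smul_eq_mul, hdd l j, comm l j a]
      split_ifs with h
      · rw [mul_one]
      · rw [mul_zero]
    rw [Finset.sum_congr rfl fun j _ => h5 j, Finset.sum_add_distrib,
      Finset.sum_ite_eq Finset.univ l]
    simp only [Finset.mem_univ, if_true]
    rw [add_comm]
  rw [h2, h4] at h1
  have h6 : eu u dd (dd l a) = (t : F) * dd l a - dd l a := by
    rw [← h1]
    ring
  rw [h6]
  push_cast
  ring

end Pool.Agent.H75.SF
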