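import Pool.Agent.H77.SF.KT

/-! KM: the models which occur. -/

open Ordinal Cardinal Order Set
open scoped ZFSet

namespace SF.H75

open SF

theorem km (hWB : T_WB) (hWC : T_WC) (hKB : T_KB) : T_KM := by
  intro κ' κ lam' lam j h
  have hpow : ∀ l : Ordinal.{0}, IsSuccLimit l → ∀ x : V, x ∈ V_ l →
      ZFSet.powerset x ∈ V_ l := by
    intro l hl x hx
    rw [ZFSet.mem_vonNeumann] at hx ⊢
    rw [ZFSet.rank_powerset]
    exact hl.succ_lt hx
  have hne : ∀ l : Ordinal.{0}, IsSuccLimit l → (∅ : V) ∈ V_ l := by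
    intro l hl
    rw [ZFSet.mem_vonNeumann, ZFSet.rank_empty]
    exact hl.bot_lt
  have htr : ∀ l : Ordinal.{0}, Trn (· ∈ V_ l) := fun l x hx y hy =>
    (ZFSet.isTransitive_vonNeumann l).mem_trans hy hx
  have h1 : ZFC (· ∈ V_ lam) := hKB lam h.lim h.elV
  have h2 : SameTh (· ∈ V_ lam') (· ∈ V_ lam) := by
    intro φ hφ v w
    have e1 := satP_congr (· ∈ V_ lam') (fun _ => False) φ v (fun _ => ∅)
      (fun i hi => by omega)
    have e2 := satP_congr (· ∈ V_ lam) (fun _ => False) φ (fun _ => app j ∅) w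
      (fun i hi => by omega)
    have e3 := h.el.el φ (fun _ => ∅) (fun _ => hne _ h.lim')
    exact e1.trans (e3.trans e2)
  have h3 : ZFC (· ∈ V_ lam') :=
    (hWB _ _ (htr lam') (htr lam) ⟨∅, hne _ h.lim'⟩ ⟨∅, hne _ h.lim⟩ h2).2.2 h1
  exact ⟨⟨h3.toZFm, hpow _ h.lim'⟩, ⟨h1.toZFm, hpow _ h.lim⟩,
    ⟨hWC.toZFm, fun _ _ => trivial⟩, h3, h1⟩

end SF.H75
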