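import Pool.Agent.H77.SF.KT

/-! KN: absolute relations are preserved. -/

open Ordinal Cardinal Order Set
open scoped ZFSet

namespace SF.H75

open SF

theorem kn (hWA : T_WA) (hKM : T_KM) : T_KN := by
  intro κ' κ lam' lam j h R hR v hv
  obtain ⟨k1, k2, -, -, -⟩ := hKM _ _ _ _ _ h
  have hE : ElemC (· ∈ V_ lam') (· ∈ V_ lam) (app j) :=
    ⟨fun x hx => app_mem h.el.func hx, fun φ v hv => h.el.el φ v hv⟩
  exact (hWA KPw _ _ _ hE k1 k2).1 (fun _ v => R v) hR v hv

end SF.H75
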