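import Pool.Agent.H77.SF.KT

/-! KQ: the power set is a definable function. -/

open Ordinal
open scoped ZFSet

namespace SF.H75

open SF

theorem kq : T_KQ := by
  refine Tm.of_mem (fun M h => h.1.trans) (fun M h v hv => h.2 _ (hv 0)) ?_
  refine ((Dfb.subset (Tm.var 0) (Tm.var 1)).mono (K' := KPw) fun M h => h.1).congr
    fun M k v hv => ?_
  exact ZFSet.mem_powerset.symm

end SF.H75
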