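import Pool.Agent.H77.SF.KT

/-! KR: complete Boolean algebras are absolute. -/

open Ordinal
open scoped ZFSet

namespace SF.H75

open SF

theorem kr (hWF : T_WF) (hWG : T_WG) : T_KR := by
  refine (hWF.2.1.mono (K' := KPw) fun M h => h.1).congr fun M k v hv => ?_
  rw [hWG.1]
  constructor
  · intro h
    exact ⟨h.bot, h.inter, fun S _ hS => h.lub S
      (k.1.trans _ (k.2 _ (hv 0)) S (ZFSet.mem_powerset.2 hS)) hS, h.cpl⟩
  · intro h
    exact ⟨h.bot, h.inter, fun S _ hS => h.lub S trivial hS, h.cpl⟩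

end SF.H75
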