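import Pool.Agent.H77.SF.KT

/-! KS: morphisms are absolute. -/

open Ordinal
open scoped ZFSet

namespace SF.H75

open SF

/-- `g` is a function which preserves intersections and least upper bounds -/
def MQ (B C g : V) : Prop := ZFSet.IsFunc B C g ∧
  (∀ x ∈ B, ∀ y ∈ B, app g (x ∩ y) = app g x ∩ app g y) ∧
  ∀ S ∈ ZFSet.powerset B, ∀ b ∈ B, LubB B S b → LubB C (imS S fun x => app g x) (app g b)

theorem dfb_mq (hWF : T_WF) (hKQ : T_KQ) : Dfb KPw (fun _ v => MQ (v 0) (v 1) (v 2)) := by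
  have hm : ∀ M, KPw M → ZFm M := fun M h => h.1
  have h1 : Dfb KPw (fun _ v => ZFSet.IsFunc (v 0) (v 1) (v 2)) :=
    (Dfb.isFunc (Tm.var 0) (Tm.var 1) (Tm.var 2)).mono hm
  have h2 : Dfb ZFm (fun _ v => ∀ x ∈ v 0, ∀ y ∈ v 0, app (v 2) (x ∩ y) =
      app (v 2) x ∩ app (v 2) y) := by
    refine (Dfb.ball (R := fun _ v => ∀ y ∈ v 1, app (v 3) (v 0 ∩ y) =
      app (v 3) (v 0) ∩ app (v 3) y) ktr_zfm (Tm.var 0) ?_).congr fun M k v hv => Iff.rfl
    exact (Dfb.ball (R := fun _ v => app (v 4) (v 1 ∩ v 0) =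
      app (v 4) (v 1) ∩ app (v 4) (v 0)) ktr_zfm (Tm.var 1)
      (Dfb.eq (Tm.app (Tm.var 4) (Tm.inter (Tm.var 1) (Tm.var 0)))
        (Tm.inter (Tm.app (Tm.var 4) (Tm.var 1)) (Tm.app (Tm.var 4) (Tm.var 0))))).congr
      fun M k v hv => Iff.rfl
  have h3 : Dfb ZFm (fun _ v => LubB (v 2) (v 1) (v 0) →
      LubB (v 3) (imS (v 1) fun x => app (v 4) x) (app (v 4) (v 0))) := by
    have a1 : Dfb ZFm (fun _ v => LubB (v 2) (v 1) (v 0)) :=
      Dfb.at3 (P := fun _ x y z => LubB x y z) hWF.1 (Tm.var 2) (Tm.var 1) (Tm.var 0)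
    have a2 : Tm ZFm (fun _ v => imS (v 1) fun x => app (v 4) x) :=
      (Tm.image (f := fun _ v => v 1) (g := fun _ v => app (v 5) (v 0)) (Tm.var 1)
        (Tm.app (Tm.var 5) (Tm.var 0))).congr fun M k v hv => rfl
    have a3 : Dfb ZFm (fun _ v => LubB (v 3) (imS (v 1) fun x => app (v 4) x)
        (app (v 4) (v 0))) :=
      Dfb.at3 (P := fun _ x y z => LubB x y z) hWF.1 (Tm.var 3) a2
        (Tm.app (Tm.var 4) (Tm.var 0))
    exact a1.imp a3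
  have h4 : Dfb KPw (fun _ v => ∀ S ∈ ZFSet.powerset (v 0), ∀ b ∈ v 0, LubB (v 0) S b →
      LubB (v 1) (imS S fun x => app (v 2) x) (app (v 2) b)) := by
    have hk : KTr KPw := fun M h => h.1.trans
    refine (Dfb.ball (R := fun _ v => ∀ b ∈ v 1, LubB (v 1) (v 0) b →
      LubB (v 2) (imS (v 0) fun x => app (v 3) x) (app (v 3) b)) hk hKQ ?_).congr
      fun M k v hv => Iff.rfl
    exact (Dfb.ball (R := fun _ v => LubB (v 2) (v 1) (v 0) →
      LubB (v 3) (imS (v 1) fun x => app (v 4) x) (app (v 4) (v 0))) hk (Tm.var 1)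
      (h3.mono hm)).congr fun M k v hv => Iff.rfl
  exact h1.and ((h2.mono hm).and h4)

theorem mem_gr {B C : V} [IsCBA B] [IsCBA C] (h : Mor B C) (z : V) :
    z ∈ h.gr ↔ ∃ x : El B, ZFSet.pair x.val (h x).val = z := by
  unfold Mor.gr
  exact ZFSet.mem_range

theorem isFunc_gr {B C : V} [IsCBA B] [IsCBA C] (h : Mor B C) : ZFSet.IsFunc B C h.gr := by
  refine ⟨fun z hz => ?_, fun z hz => ?_⟩
  · obtain ⟨x, rfl⟩ := (mem_gr h z).1 hz
    exact ZFSet.pair_mem_prod.2 ⟨x.mem, (h x).mem⟩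
  · refine ⟨(h ⟨z, hz⟩).val, (mem_gr h _).2 ⟨⟨z, hz⟩, rfl⟩, fun w hw => ?_⟩
    obtain ⟨x, hx⟩ := (mem_gr h _).1 hw
    obtain ⟨h1, h2⟩ := ZFSet.pair_inj.1 hx
    have h3 : x = ⟨z, hz⟩ := El.ext h1
    rw [← h2, h3]

theorem app_gr {B C : V} [IsCBA B] [IsCBA C] (h : Mor B C) (x : El B) :
    app h.gr x.val = (h x).val :=
  app_eq (svl_of_isFunc (isFunc_gr h)) ((mem_gr h _).2 ⟨x, rfl⟩)

theorem mq_gr (hWG : T_WG) {B C : V} [IsCBA B] [IsCBA C] (h : Mor B C) : MQ B C h.gr := by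
  refine ⟨isFunc_gr h, fun x hx y hy => ?_, fun S hS b hb hl => ?_⟩
  · have e1 := app_gr h ⟨x, hx⟩
    have e2 := app_gr h ⟨y, hy⟩
    have e3 := app_gr h (⟨x, hx⟩ ⊓ ⟨y, hy⟩)
    rw [El.inf_val, h.inf, El.inf_val] at e3
    rw [← e1, ← e2] at e3
    exact e3
  · have hS' := ZFSet.mem_powerset.1 hS
    have e0 : (B.sep fun s => ∃ x : El B, x ∈ {x : El B | x.val ∈ S} ∧ x.val = s) = S := by
      ext s
      rw [ZFSet.mem_sep]
      constructor
      · rintro ⟨-, x, hx, rfl⟩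
        exact hx
      · intro hs
        exact ⟨hS' hs, ⟨s, hS' hs⟩, hs, rfl⟩
    have e1 : (⟨b, hb⟩ : El B) = sSup {x : El B | x.val ∈ S} := by
      refine (hWG.2.1 B _ _).1 ?_
      rw [e0]
      exact hl
    have e2 : h ⟨b, hb⟩ = sSup (h '' {x : El B | x.val ∈ S}) := by
      rw [e1, h.sup]
    have e3 := (hWG.2.1 C _ _).2 e2
    have e4 : (C.sep fun s => ∃ x : El C, x ∈ h '' {x : El B | x.val ∈ S} ∧ x.val = s) =
        imS S fun x => app h.gr x := by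
      ext s
      rw [ZFSet.mem_sep, mem_imS]
      constructor
      · rintro ⟨-, _, ⟨x, hx, rfl⟩, rfl⟩
        exact ⟨x.val, hx, app_gr h x⟩
      · rintro ⟨x, hx, rfl⟩
        have e5 := app_gr h ⟨x, hS' hx⟩
        simp only at e5
        rw [e5]
        exact ⟨(h ⟨x, hS' hx⟩).mem, h ⟨x, hS' hx⟩, ⟨⟨x, hS' hx⟩, hx, rfl⟩, rfl⟩
    rw [e4] at e3
    have e6 := app_gr h ⟨b, hb⟩
    simp only at e6
    rw [e6]
    exact e3

/-- the morphism of a function which preserves intersections and least upper bounds -/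
noncomputable def mkMor (hWG : T_WG) {B C g : V} [IsCBA B] [IsCBA C] (h : MQ B C g) :
    Mor B C where
  f x := ⟨app g x.val, app_mem h.1 x.mem⟩
  inf x y := by
    apply El.ext
    have e1 : app g (x ⊓ y).val = app g x.val ∩ app g y.val := by
      rw [El.inf_val]
      exact h.2.1 _ x.mem _ y.mem
    have e2 := El.inf_val (⟨app g x.val, app_mem h.1 x.mem⟩ : El C)
      ⟨app g y.val, app_mem h.1 y.mem⟩
    exact e1.trans e2.symm
  sup S := by
    have h1 := (hWG.2.1 B S (sSup S)).2 rfl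
    have h2 := h.2.2 _ (ZFSet.mem_powerset.2 (fun z hz => (ZFSet.mem_sep.1 hz).1)) _
      (sSup S).mem h1
    refine (hWG.2.1 C _ _).1 ?_
    have e4 : (C.sep fun s => ∃ x : El C, x ∈ (fun x : El B =>
        (⟨app g x.val, app_mem h.1 x.mem⟩ : El C)) '' S ∧ x.val = s) =
        imS (B.sep fun s => ∃ x : El B, x ∈ S ∧ x.val = s) fun x => app g x := by
      ext s
      rw [ZFSet.mem_sep, mem_imS]
      constructor
      · rintro ⟨-, _, ⟨x, hx, rfl⟩, rfl⟩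
        exact ⟨x.val, ZFSet.mem_sep.2 ⟨x.mem, x, hx, rfl⟩, rfl⟩
      · rintro ⟨x, hx, rfl⟩
        obtain ⟨hxB, y, hy, rfl⟩ := ZFSet.mem_sep.1 hx
        exact ⟨app_mem h.1 y.mem, _, ⟨y, hy, rfl⟩, rfl⟩
    rw [e4]
    exact h2

theorem gr_mkMor (hWG : T_WG) {B C g : V} [IsCBA B] [IsCBA C] (h : MQ B C g) :
    (mkMor hWG h).gr = g := by
  ext z
  rw [mem_gr]
  constructor
  · rintro ⟨x, rfl⟩
    exact pair_app_mem h.1 x.mem
  · intro hz
    obtain ⟨a, ha, b, hb, rfl⟩ := ZFSet.mem_prod.1 (h.1.1 hz)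
    refine ⟨⟨a, ha⟩, ?_⟩
    have h2 := ((pair_mem_iff_app h.1).1 hz).2
    show ZFSet.pair a (app g a) = ZFSet.pair a b
    rw [h2]

theorem ks (hWF : T_WF) (hWG : T_WG) (hKR : T_KR) (hKQ : T_KQ) : T_KS := by
  have h1 : Dfb KPw (fun _ v => IsCBA (v 1)) :=
    Dfb.at1 (P := fun _ x => IsCBA x) hKR (Tm.var 1)
  refine (hKR.and (h1.and (dfb_mq hWF hKQ))).congr fun M k v hv => ?_
  constructor
  · rintro ⟨hB, hC, hq⟩
    exact ⟨hB, hC, mkMor hWG hq, gr_mkMor hWG hq⟩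
  · rintro ⟨hB, hC, h, hg⟩
    refine ⟨hB, hC, ?_⟩
    rw [← hg]
    exact mq_gr hWG h

end SF.H75
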